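import Mathlib
import Pool.Agent.Lib.helper22.IrA

set_option autoImplicit false

namespace Pool.Agent.Results.MP_fef6c2_gt.Rigid

open Set Topology

/-- Every continuous injection of `X` into the plane is a homeomorphism onto its image. -/
def InjRigid (X : Set ℂ) : Prop :=
  ∀ f : X → ℂ, Continuous f → Function.Injective f → IsEmbedding f

theorem result :
    (∃ X : Set ℂ, LocallyCompactSpace X ∧ IsConnected Xᶜ ∧ ¬ IsCompact X ∧ ¬ IsOpen X ∧
      InjRigid X) ∧
    (∀ X : Set ℂ, LocallyCompactSpace X → IsConnected Xᶜ → ¬ IsCompact X → ¬ IsOpen X →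
      InjRigid X → Bornology.IsBounded Xᶜ) := by
  constructor
  · have hcl : IsClosed Pool.Agent.Lib.helper22.Ir.Ext :=
      isClosed_le continuous_const continuous_norm
    have hc : Pool.Agent.Lib.helper22.Ir.Extᶜ = Metric.ball 0 1 := by
      ext z
      simp [Pool.Agent.Lib.helper22.Ir.Ext]
    refine ⟨Pool.Agent.Lib.helper22.Ir.Ext, hcl.locallyCompactSpace, ?_, fun h => ?_, fun h => ?_,
      Pool.Agent.Lib.helper22.Ir.ext_rigid⟩
    · rw [hc]
      exact (convex_ball (0 : ℂ) 1).isConnected (Metric.nonempty_ball.mpr one_pos)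
    · obtain ⟨R, hR⟩ := h.isBounded.subset_closedBall 0
      have h1 : ((|R| + 1 : ℝ) : ℂ) ∈ Pool.Agent.Lib.helper22.Ir.Ext := by
        show 1 ≤ ‖((|R| + 1 : ℝ) : ℂ)‖
        rw [Complex.norm_real, Real.norm_eq_abs, abs_of_nonneg (by positivity)]
        linarith [abs_nonneg R]
      have h2 := hR h1
      rw [Metric.mem_closedBall, dist_zero_right, Complex.norm_real, Real.norm_eq_abs,
        abs_of_nonneg (by positivity)] at h2
      linarith [le_abs_self R]
    · rcases isClopen_iff.mp ⟨hcl, h⟩ with h0 | h0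
      · have : (1 : ℂ) ∈ Pool.Agent.Lib.helper22.Ir.Ext := by
          simp [Pool.Agent.Lib.helper22.Ir.Ext]
        rw [h0] at this
        exact this
      · have : (0 : ℂ) ∈ Pool.Agent.Lib.helper22.Ir.Ext := h0 ▸ mem_univ _
        simp only [Pool.Agent.Lib.helper22.Ir.Ext, mem_setOf_eq, norm_zero] at this
        linarith
  · intro X hX hc h1 h2 hr
    by_contra hb
    obtain ⟨f, a1, a2, a3⟩ := Pool.Agent.Lib.helper22.Ir.not_rigid X hc.2 hb h1 h2
    exact a3 (hr f a1 a2)

end Pool.Agent.Results.MP_fef6c2_gt.Rigid
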